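import Pool.Agent.Helper75.Slab.Goals

set_option autoImplicit false

/-!
# Differentiability of the flow with respect to the initial point (goal G_FD)
-/

open Set Metric

namespace Pool.Agent.Helper94.Slab

open Pool.Agent.Helper75.Flow

section Linear

variable {V : Type} [NormedAddCommGroup V] [NormedSpace ℝ V]

theorem lin_local [CompleteSpace V] {A : ℝ → V →L[ℝ] V} {a b C : ℝ}
    (hA : ContinuousOn A (Icc a b)) (hC0 : 0 ≤ C) (hC : ∀ t ∈ Icc a b, ‖A t‖ ≤ C) {c c' : ℝ}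
    (hac : a ≤ c) (hcc : c ≤ c') (hcb : c' ≤ b) (hδ : (2 * C + 1) * (c' - c) ≤ 1) (y₀ : V) :
    ∃ y : ℝ → V, y c = y₀ ∧ ∀ t ∈ Icc c c', HasDerivWithinAt y (A t (y t)) (Icc c c') t := by
  have hsub : Icc c c' ⊆ Icc a b := Icc_subset_Icc hac hcb
  have hN : 0 ≤ ‖y₀‖ := norm_nonneg _
  have hPL : IsPicardLindelof (fun t x => A t x) (tmin := c) (tmax := c') ⟨c, le_rfl, hcc⟩ y₀
      ⟨‖y₀‖ + 1, by positivity⟩ 0 ⟨C * (2 * ‖y₀‖ + 1), by positivity⟩ ⟨C, hC0⟩ := by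
    refine ⟨?_, ?_, ?_, ?_⟩
    · intro t ht
      refine (LipschitzWith.of_dist_le_mul ?_).lipschitzOnWith
      intro x y
      rw [dist_eq_norm, dist_eq_norm, ← map_sub]
      exact (A t).le_of_opNorm_le (hC t (hsub ht)) _
    · intro x _
      exact (hA.mono hsub).clm_apply continuousOn_const
    · intro t ht x hx
      have h1 : ‖A t x‖ ≤ C * ‖x‖ := (A t).le_of_opNorm_le (hC t (hsub ht)) _
      have h2 : ‖x‖ ≤ 2 * ‖y₀‖ + 1 := by
        have h3 : dist x y₀ ≤ ‖y₀‖ + 1 := hx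
        rw [dist_eq_norm] at h3
        have h4 : ‖x‖ ≤ ‖x - y₀‖ + ‖y₀‖ := by
          have := norm_add_le (x - y₀) y₀
          simpa using this
        linarith
      exact h1.trans (mul_le_mul_of_nonneg_left h2 hC0)
    · show C * (2 * ‖y₀‖ + 1) * max (c' - c) (c - c) ≤ (‖y₀‖ + 1) - 0
      rw [sub_self, max_eq_left (by linarith), sub_zero]
      have h5 : 0 ≤ c' - c := by linarith
      have h6 : C * (c' - c) ≤ 1 / 2 := by nlinarith
      have h7 : 0 ≤ C * (c' - c) := by positivity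
      nlinarith [mul_le_mul_of_nonneg_right h6 hN]
  obtain ⟨y, hy, hy'⟩ := hPL.exists_eq_forall_mem_Icc_hasDerivWithinAt₀
  exact ⟨y, hy, hy'⟩

theorem lin_glue {A : ℝ → V →L[ℝ] V} {a c c' : ℝ} {x y : ℝ → V} (hac : a ≤ c) (hcc : c ≤ c')
    (hx : ∀ t ∈ Icc a c, HasDerivWithinAt x (A t (x t)) (Icc a c) t)
    (hy : ∀ t ∈ Icc c c', HasDerivWithinAt y (A t (y t)) (Icc c c') t) (hxy : y c = x c) :
    ∀ t ∈ Icc a c', HasDerivWithinAt (fun t => if t ≤ c then x t else y t)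
      (A t ((fun t => if t ≤ c then x t else y t) t)) (Icc a c') t := by
  set z : ℝ → V := fun t => if t ≤ c then x t else y t with hz
  have hzx : ∀ t ≤ c, z t = x t := fun t ht => if_pos ht
  have hzy : ∀ t, c ≤ t → z t = y t := by
    intro t ht
    rcases ht.eq_or_lt with h | h
    · rw [← h, hzx c le_rfl, hxy]
    · exact if_neg (not_le.2 h)
  have h1 : ∀ t ∈ Icc a c, HasDerivWithinAt z (A t (z t)) (Icc a c) t := by
    intro t ht
    rw [hzx t ht.2]
    exact (hx t ht).congr (fun s hs => hzx s hs.2) (hzx t ht.2)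
  have h2 : ∀ t ∈ Icc c c', HasDerivWithinAt z (A t (z t)) (Icc c c') t := by
    intro t ht
    rw [hzy t ht.1]
    exact (hy t ht).congr (fun s hs => hzy s hs.1) (hzy t ht.1)
  intro t ht
  rcases lt_trichotomy t c with h | h | h
  · refine (h1 t ⟨ht.1, h.le⟩).mono_of_mem_nhdsWithin ?_
    rw [mem_nhdsWithin_iff_exists_mem_nhds_inter]
    exact ⟨Iic c, Iic_mem_nhds h, fun s hs => ⟨hs.2.1, hs.1⟩⟩
  · subst h
    rw [← Icc_union_Icc_eq_Icc hac hcc]
    exact (h1 t ⟨ht.1, le_rfl⟩).union (h2 t ⟨le_rfl, ht.2⟩)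
  · refine (h2 t ⟨h.le, ht.2⟩).mono_of_mem_nhdsWithin ?_
    rw [mem_nhdsWithin_iff_exists_mem_nhds_inter]
    exact ⟨Ici c, Ici_mem_nhds h, fun s hs => ⟨hs.1, hs.2.2⟩⟩

/-- global existence for linear ordinary differential equations -/
theorem lin_global [CompleteSpace V] {A : ℝ → V →L[ℝ] V} {a b : ℝ} (hab : a ≤ b)
    (hA : ContinuousOn A (Icc a b)) (x₀ : V) :
    ∃ x : ℝ → V, x a = x₀ ∧ ∀ t ∈ Icc a b, HasDerivWithinAt x (A t (x t)) (Icc a b) t := by
  obtain ⟨C, hC⟩ := isCompact_Icc.exists_bound_of_continuousOn hA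
  have hC0 : 0 ≤ C := (norm_nonneg _).trans (hC a ⟨le_rfl, hab⟩)
  have hpos : 0 < 2 * C + 1 := by linarith
  have key : ∀ n : ℕ, ∃ x : ℝ → V, x a = x₀ ∧ ∀ t ∈ Icc a (min b (a + n * (1 / (2 * C + 1)))),
      HasDerivWithinAt x (A t (x t)) (Icc a (min b (a + n * (1 / (2 * C + 1))))) t := by
    intro n
    induction n with
    | zero =>
      refine ⟨fun _ => x₀, rfl, ?_⟩
      have h0 : min b (a + ((0 : ℕ) : ℝ) * (1 / (2 * C + 1))) = a := by
        simp [hab]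
      rw [h0, Icc_self]
      intro t ht
      rw [mem_singleton_iff] at ht
      subst ht
      exact HasFDerivWithinAt.of_subsingleton subsingleton_singleton
    | succ n ih =>
      obtain ⟨x, hxa, hx⟩ := ih
      set c := min b (a + n * (1 / (2 * C + 1))) with hc
      set c' := min b (a + ((n + 1 : ℕ) : ℝ) * (1 / (2 * C + 1))) with hc'
      have hstep : (0 : ℝ) < 1 / (2 * C + 1) := by positivity
      have hac : a ≤ c := le_min hab (by
        have : (0 : ℝ) ≤ n * (1 / (2 * C + 1)) := by positivity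
        linarith)
      have hcc : c ≤ c' := by
        refine min_le_min le_rfl ?_
        push_cast
        nlinarith
      have hcb : c' ≤ b := min_le_left _ _
      have hδ : (2 * C + 1) * (c' - c) ≤ 1 := by
        have h1 : c' - c ≤ 1 / (2 * C + 1) := by
          have h2 : c' ≤ a + ((n + 1 : ℕ) : ℝ) * (1 / (2 * C + 1)) := min_le_right _ _
          rcases le_total b (a + n * (1 / (2 * C + 1))) with h | h
          · have : c = b := min_eq_left h
            rw [this]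
            linarith
          · have : c = a + n * (1 / (2 * C + 1)) := min_eq_right h
            rw [this]
            push_cast at h2
            linarith
        calc (2 * C + 1) * (c' - c) ≤ (2 * C + 1) * (1 / (2 * C + 1)) :=
              mul_le_mul_of_nonneg_left h1 hpos.le
          _ = 1 := by field_simp
      obtain ⟨y, hyc, hy⟩ := lin_local hA hC0 hC hac hcc hcb hδ (x c)
      refine ⟨fun t => if t ≤ c then x t else y t, ?_, lin_glue hac hcc hx hy hyc⟩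
      simp only [hac, if_true]
      exact hxa
  obtain ⟨n, hn⟩ := exists_nat_gt ((b - a) * (2 * C + 1))
  obtain ⟨x, hxa, hx⟩ := key n
  have hb : min b (a + n * (1 / (2 * C + 1))) = b := by
    refine min_eq_left ?_
    have h1 : b - a < n * (1 / (2 * C + 1)) := by
      rw [mul_one_div, lt_div_iff₀ hpos]
      exact hn
    linarith
  rw [hb] at hx
  exact ⟨x, hxa, hx⟩

/-- a two-sided derivative on a compact interval gives a right derivative -/
theorem right_deriv {f : ℝ → V} {f' : V} {t s : ℝ} (hs : s ∈ Ico 0 t)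
    (hf : HasDerivWithinAt f f' (Icc 0 t) s) : HasDerivWithinAt f f' (Ici s) s := by
  refine hf.mono_of_mem_nhdsWithin ?_
  rw [mem_nhdsWithin_iff_exists_mem_nhds_inter]
  exact ⟨Iic t, Iic_mem_nhds hs.2, fun x hx => ⟨hs.1.trans hx.2, hx.1⟩⟩

/-- Gronwall with zero initial value -/
theorem gron0 {f f' : ℝ → V} {t K ε : ℝ} (hK : 0 ≤ K) (hε : 0 ≤ ε)
    (hf : ∀ s ∈ Icc 0 t, HasDerivWithinAt f (f' s) (Icc 0 t) s) (h0 : f 0 = 0)
    (hb : ∀ s ∈ Icc 0 t, ‖f' s‖ ≤ K * ‖f s‖ + ε) :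
    ∀ s ∈ Icc 0 t, ‖f s‖ ≤ ε * Real.exp ((K + 1) * t) := by
  intro s hs
  have hc : ContinuousOn f (Icc 0 t) := fun x hx => (hf x hx).continuousWithinAt
  have h1 := norm_le_gronwallBound_of_norm_deriv_right_le (f := f) (f' := f') (δ := 0)
    (K := K + 1) (ε := ε) (a := 0) (b := t) hc
    (fun x hx => right_deriv hx (hf x ⟨hx.1, hx.2.le⟩)) (by rw [h0, norm_zero])
    (fun x hx => by
      have h2 := hb x ⟨hx.1, hx.2.le⟩
      have h3 := norm_nonneg (f x)
      nlinarith) s hs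
  rw [gronwallBound_of_K_ne_0 (by linarith : K + 1 ≠ 0), sub_zero] at h1
  simp only [zero_mul, zero_add] at h1
  have h4 : Real.exp ((K + 1) * s) ≤ Real.exp ((K + 1) * t) := by
    apply Real.exp_le_exp.2
    nlinarith [hs.2]
  have h5 : 0 ≤ Real.exp ((K + 1) * s) - 1 := by
    have : 1 ≤ Real.exp ((K + 1) * s) := Real.one_le_exp (mul_nonneg (by linarith) hs.1)
    linarith
  have h6 : ε / (K + 1) ≤ ε := div_le_self hε (by linarith)
  calc ‖f s‖ ≤ ε / (K + 1) * (Real.exp ((K + 1) * s) - 1) := h1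
    _ ≤ ε * (Real.exp ((K + 1) * s) - 1) := mul_le_mul_of_nonneg_right h6 h5
    _ ≤ ε * Real.exp ((K + 1) * t) := by
      apply mul_le_mul_of_nonneg_left _ hε
      linarith

end Linear

/-- uniformity along a compact curve -/
theorem unif_curve {W : Type} [NormedAddCommGroup W] {t : ℝ} {F : ℝ → E → W} {O : Set E}
    (hO : IsOpen O) (hF : ContinuousOn (fun z : ℝ × E => F z.1 z.2) (Icc 0 t ×ˢ O)) {γ : ℝ → E}
    (hγ : ContinuousOn γ (Icc 0 t)) (hγO : ∀ s ∈ Icc 0 t, γ s ∈ O) {ε : ℝ} (hε : 0 < ε) :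
    ∃ r > 0, ∀ s ∈ Icc 0 t, ∀ y, ‖y - γ s‖ ≤ r → y ∈ O ∧ ‖F s y - F s (γ s)‖ ≤ ε := by
  have hK : IsCompact (γ '' Icc 0 t) := isCompact_Icc.image_of_continuousOn hγ
  have hKO : γ '' Icc 0 t ⊆ O := by
    rintro _ ⟨s, hs, rfl⟩
    exact hγO s hs
  obtain ⟨r₀, hr₀, hr₀'⟩ := hK.exists_cthickening_subset_open hO hKO
  have hK1 : IsCompact (Icc 0 t ×ˢ cthickening r₀ (γ '' Icc 0 t)) :=
    isCompact_Icc.prod hK.cthickening
  have hu := hK1.uniformContinuousOn_of_continuous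
    (hF.mono (prod_mono_right hr₀'))
  rw [Metric.uniformContinuousOn_iff] at hu
  obtain ⟨δ, hδ, hδ'⟩ := hu ε hε
  refine ⟨min r₀ (δ / 2), by positivity, ?_⟩
  intro s hs y hy
  have hγm : γ s ∈ γ '' Icc 0 t := mem_image_of_mem _ hs
  have hym : y ∈ cthickening r₀ (γ '' Icc 0 t) := by
    refine mem_cthickening_of_dist_le y (γ s) _ _ hγm ?_
    rw [dist_eq_norm]
    exact hy.trans (min_le_left _ _)
  have hγm' : γ s ∈ cthickening r₀ (γ '' Icc 0 t) := self_subset_cthickening _ hγm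
  refine ⟨hr₀' hym, ?_⟩
  have h1 := hδ' (s, y) ⟨hs, hym⟩ (s, γ s) ⟨hs, hγm'⟩ (by
    rw [Prod.dist_eq, dist_self]
    have : dist y (γ s) < δ := by
      rw [dist_eq_norm]
      have := hy.trans (min_le_right _ _)
      linarith
    simpa [hδ] using this)
  rw [dist_eq_norm] at h1
  exact h1.le

/-- the derivative of a Lipschitz field is bounded -/
theorem fderiv_bd {t K : ℝ} {u : ℝ → E → E} (hu : LipField t K u) {s : ℝ} (hs : s ∈ Icc 0 t)
    (x : E) : ‖fderiv ℝ (u s) x‖ ≤ K := by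
  have h1 : LipschitzWith ⟨K, hu.1⟩ (u s) := by
    refine LipschitzWith.of_dist_le_mul ?_
    intro x y
    rw [dist_eq_norm, dist_eq_norm]
    exact hu.2.2 s hs x y
  exact norm_fderiv_le_of_lipschitz ℝ h1

/-- the velocity is uniformly close to its linearisation near a trajectory -/
theorem lin_err {t : ℝ} {u : ℝ → E → E} {O : Set E} (hO : IsOpen O)
    (hd : ∀ s ∈ Icc 0 t, ∀ x ∈ O, DifferentiableAt ℝ (u s) x)
    (hF : ContinuousOn (fun z : ℝ × E => fderiv ℝ (u z.1) z.2) (Icc 0 t ×ˢ O)) {γ : ℝ → E}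
    (hγ : ContinuousOn γ (Icc 0 t)) (hγO : ∀ s ∈ Icc 0 t, γ s ∈ O) {ε : ℝ} (hε : 0 < ε) :
    ∃ r > 0, ∀ s ∈ Icc 0 t, ∀ y, ‖y - γ s‖ ≤ r →
      ‖u s y - u s (γ s) - fderiv ℝ (u s) (γ s) (y - γ s)‖ ≤ ε * ‖y - γ s‖ := by
  obtain ⟨r, hr, h⟩ := unif_curve (F := fun s x => fderiv ℝ (u s) x) hO hF hγ hγO hε
  refine ⟨r, hr, fun s hs y hy => ?_⟩
  have hmem : ∀ z ∈ closedBall (γ s) r, ‖z - γ s‖ ≤ r := by
    intro z hz
    rwa [mem_closedBall, dist_eq_norm] at hz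
  refine Convex.norm_image_sub_le_of_norm_hasFDerivWithin_le' (𝕜 := ℝ)
    (f := u s) (f' := fun z => fderiv ℝ (u s) z) (s := closedBall (γ s) r) ?_ ?_
    (convex_closedBall _ _) (mem_closedBall_self hr.le) ?_
  · intro z hz
    exact (hd s hs z (h s hs z (hmem z hz)).1).hasFDerivAt.hasFDerivWithinAt
  · intro z hz
    exact (h s hs z (hmem z hz)).2
  · rwa [mem_closedBall, dist_eq_norm]

/-- the linearised flow along a trajectory -/
theorem ex_jac {t : ℝ} {A : ℝ → E →L[ℝ] E} (ht : 0 ≤ t) (hA : ContinuousOn A (Icc 0 t)) :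
    ∃ J : ℝ → E →L[ℝ] E, J 0 = ContinuousLinearMap.id ℝ E ∧
      ∀ s ∈ Icc 0 t, HasDerivWithinAt J ((A s).comp (J s)) (Icc 0 t) s := by
  obtain ⟨J, h0, h1⟩ := lin_global (V := E →L[ℝ] E)
    (A := fun s => ContinuousLinearMap.compL ℝ E E E (A s)) ht
    ((ContinuousLinearMap.compL ℝ E E E).continuous.comp_continuousOn hA)
    (ContinuousLinearMap.id ℝ E)
  exact ⟨J, h0, h1⟩

/-- the linearised flow is the derivative of the flow -/
theorem jac_fderiv (hFL2 : G_FL2) {t K : ℝ} {u φ : ℝ → E → E} {O : Set E} (ht : 0 ≤ t)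
    (hu : LipField t K u) (hφ : IsFlow t u φ) (hO : IsOpen O)
    (hd : ∀ s ∈ Icc 0 t, ∀ x ∈ O, DifferentiableAt ℝ (u s) x)
    (hF : ContinuousOn (fun z : ℝ × E => fderiv ℝ (u z.1) z.2) (Icc 0 t ×ˢ O)) {X : E}
    (hX : ∀ s ∈ Icc 0 t, φ s X ∈ O) {J : ℝ → E →L[ℝ] E}
    (hJ0 : J 0 = ContinuousLinearMap.id ℝ E)
    (hJ : ∀ s ∈ Icc 0 t,
      HasDerivWithinAt J ((fderiv ℝ (u s) (φ s X)).comp (J s)) (Icc 0 t) s) :
    ∀ s ∈ Icc 0 t, HasFDerivAt (φ s) (J s) X := by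
  have hK : 0 ≤ K := hu.1
  obtain ⟨hlip, hcont, -, -⟩ := hFL2 t K u φ ht hu hφ
  have hγ : ContinuousOn (fun s => φ s X) (Icc 0 t) := fun s hs => (hφ.2 X s hs).continuousWithinAt
  intro s hs
  rw [hasFDerivAt_iff_isLittleO_nhds_zero, Asymptotics.isLittleO_iff]
  intro c hc
  set C₁ : ℝ := Real.exp (K * t) with hC₁
  set C₂ : ℝ := Real.exp ((K + 1) * t) with hC₂
  have hC₁p : 0 < C₁ := Real.exp_pos _
  have hC₂p : 0 < C₂ := Real.exp_pos _
  obtain ⟨r, hr, hlin⟩ := lin_err hO hd hF hγ hX (ε := c / (C₁ * C₂)) (by positivity)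
  have hev : ∀ᶠ h : E in nhds 0, ‖h‖ ≤ r / C₁ := by
    have : closedBall (0 : E) (r / C₁) ∈ nhds (0 : E) := closedBall_mem_nhds _ (by positivity)
    filter_upwards [this] with h hh
    simpa using hh
  filter_upwards [hev] with h hh
  have hsm : ∀ s ∈ Icc 0 t, ‖φ s (X + h) - φ s X‖ ≤ C₁ * ‖h‖ := by
    intro s hs
    have h1 := (hlip s hs (X + h) X).1
    rw [add_sub_cancel_left] at h1
    refine h1.trans (mul_le_mul_of_nonneg_right ?_ (norm_nonneg _))
    exact Real.exp_le_exp.2 (mul_le_mul_of_nonneg_left hs.2 hK)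
  have hsr : ∀ s ∈ Icc 0 t, ‖φ s (X + h) - φ s X‖ ≤ r := by
    intro s hs
    refine (hsm s hs).trans ?_
    calc C₁ * ‖h‖ ≤ C₁ * (r / C₁) := mul_le_mul_of_nonneg_left hh hC₁p.le
      _ = r := by field_simp
  have hg := gron0 (V := E) (f := fun s => φ s (X + h) - φ s X - J s h)
    (f' := fun s => u s (φ s (X + h)) - u s (φ s X) -
      ((fderiv ℝ (u s) (φ s X)).comp (J s)) h) (t := t) (K := K)
    (ε := c / (C₁ * C₂) * (C₁ * ‖h‖)) hK (by positivity)
    (fun s hs => by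
      refine ((hφ.2 (X + h) s hs).sub (hφ.2 X s hs)).sub ?_
      exact (hJ s hs).clm_apply (hasDerivWithinAt_const s (Icc 0 t) h) |>.congr_deriv (by simp))
    (by simp [hφ.1, hJ0])
    (fun s hs => by
      have h1 := hlin s hs (φ s (X + h)) (hsr s hs)
      have h2 := hsm s hs
      set L := fderiv ℝ (u s) (φ s X) with hL
      have h3 : u s (φ s (X + h)) - u s (φ s X) - (L.comp (J s)) h =
          (u s (φ s (X + h)) - u s (φ s X) - L (φ s (X + h) - φ s X)) +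
          L (φ s (X + h) - φ s X - J s h) := by
        rw [ContinuousLinearMap.comp_apply, map_sub L (φ s (X + h) - φ s X) (J s h)]
        abel
      rw [h3]
      have h4 : ‖L (φ s (X + h) - φ s X - J s h)‖ ≤ K * ‖φ s (X + h) - φ s X - J s h‖ :=
        L.le_of_opNorm_le (fderiv_bd hu hs _) _
      have h5 : c / (C₁ * C₂) * ‖φ s (X + h) - φ s X‖ ≤ c / (C₁ * C₂) * (C₁ * ‖h‖) :=
        mul_le_mul_of_nonneg_left h2 (by positivity)
      have h6 := norm_add_le (u s (φ s (X + h)) - u s (φ s X) - L (φ s (X + h) - φ s X))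
        (L (φ s (X + h) - φ s X - J s h))
      linarith)
    s hs
  refine hg.trans (le_of_eq ?_)
  rw [← hC₂]
  field_simp

/-- G_FD -/
theorem thm (hFL2 : G_FL2) : G_FD := by
  intro t K u φ O ht hu hφ hO hinv hd hF
  have hK : 0 ≤ K := hu.1
  obtain ⟨hlip, hcont, -, -⟩ := hFL2 t K u φ ht hu hφ
  have hγ : ∀ X, ContinuousOn (fun s => φ s X) (Icc 0 t) :=
    fun X s hs => (hφ.2 X s hs).continuousWithinAt
  have hA : ∀ X ∈ O, ContinuousOn (fun s => fderiv ℝ (u s) (φ s X)) (Icc 0 t) := by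
    intro X hX
    have h1 : ContinuousOn (fun s : ℝ => (s, φ s X)) (Icc 0 t) :=
      continuousOn_id.prodMk (hγ X)
    exact hF.comp h1 (fun s hs => ⟨hs, hinv X hX s hs⟩)
  have hex : ∀ X : E, ∃ J : ℝ → E →L[ℝ] E, X ∈ O → J 0 = ContinuousLinearMap.id ℝ E ∧
      ∀ s ∈ Icc 0 t, HasDerivWithinAt J ((fderiv ℝ (u s) (φ s X)).comp (J s)) (Icc 0 t) s := by
    intro X
    by_cases hX : X ∈ O
    · obtain ⟨J, hJ⟩ := ex_jac ht (hA X hX)
      exact ⟨J, fun _ => hJ⟩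
    · exact ⟨fun _ => 0, fun h => absurd h hX⟩
  choose J' hJ' using hex
  have hJ : IsJac t u φ O (fun s X => J' X s) := by
    intro X hX
    refine ⟨(hJ' X hX).1, fun s hs => ⟨?_, (hJ' X hX).2 s hs⟩⟩
    exact jac_fderiv hFL2 ht hu hφ hO hd hF (hinv X hX) (hJ' X hX).1 (hJ' X hX).2 s hs
  have hnorm : ∀ s ∈ Icc 0 t, ∀ X ∈ O, ‖J' X s‖ ≤ Real.exp (K * s) := by
    intro s hs X hX
    have h1 : LipschitzWith ⟨Real.exp (K * s), (Real.exp_pos _).le⟩ (φ s) := by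
      refine LipschitzWith.of_dist_le_mul ?_
      intro x y
      rw [dist_eq_norm, dist_eq_norm]
      exact (hlip s hs x y).1
    exact ((hJ X hX).2 s hs).1.le_of_lipschitz h1
  refine ⟨fun s X => J' X s, hJ, ?_, hnorm⟩
  rintro ⟨s₀, X₀⟩ ⟨hs₀, hX₀⟩
  have hX₀O : X₀ ∈ O := hX₀
  rw [Metric.continuousWithinAt_iff]
  intro ε hε
  set C₁ : ℝ := Real.exp (K * t) with hC₁
  set C₂ : ℝ := Real.exp ((K + 1) * t) with hC₂
  have hC₁p : 0 < C₁ := Real.exp_pos _
  have hC₂p : 0 < C₂ := Real.exp_pos _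
  obtain ⟨r, hr, hA'⟩ := unif_curve (F := fun s x => fderiv ℝ (u s) x) hO hF (hγ X₀)
    (hinv X₀ hX₀O) (ε := ε / 4 / (C₁ * C₂)) (by positivity)
  have hJc : ContinuousWithinAt (fun s => J' X₀ s) (Icc 0 t) s₀ :=
    ((hJ' X₀ hX₀O).2 s₀ hs₀).continuousWithinAt
  rw [Metric.continuousWithinAt_iff] at hJc
  obtain ⟨δ, hδ, hδ'⟩ := hJc (ε / 2) (by positivity)
  refine ⟨min δ (r / C₁), by positivity, ?_⟩
  rintro ⟨s, X⟩ ⟨hs, hX⟩ hdist
  have hXO : X ∈ O := hX
  have hsI : s ∈ Icc 0 t := hs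
  rw [Prod.dist_eq, max_lt_iff] at hdist
  have hds : dist s s₀ < δ := hdist.1.trans_le (min_le_left _ _)
  have hdX : ‖X - X₀‖ ≤ r / C₁ := by
    rw [← dist_eq_norm]
    exact (hdist.2.trans_le (min_le_right _ _)).le
  have hsr : ∀ s ∈ Icc 0 t, ‖φ s X - φ s X₀‖ ≤ r := by
    intro s hs
    refine ((hlip s hs X X₀).1).trans ?_
    calc Real.exp (K * s) * ‖X - X₀‖ ≤ C₁ * (r / C₁) := by
          apply mul_le_mul _ hdX (norm_nonneg _) hC₁p.le
          exact Real.exp_le_exp.2 (mul_le_mul_of_nonneg_left hs.2 hK)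
      _ = r := by field_simp
  have hg := gron0 (V := E →L[ℝ] E) (f := fun s => J' X s - J' X₀ s)
    (f' := fun s => (fderiv ℝ (u s) (φ s X)).comp (J' X s) -
      (fderiv ℝ (u s) (φ s X₀)).comp (J' X₀ s)) (t := t) (K := K)
    (ε := ε / 4 / (C₁ * C₂) * C₁) hK (by positivity)
    (fun s hs => ((hJ' X hXO).2 s hs).sub ((hJ' X₀ hX₀O).2 s hs))
    (by
      show J' X 0 - J' X₀ 0 = 0
      rw [(hJ' X hXO).1, (hJ' X₀ hX₀O).1, sub_self])
    (fun s hs => by
      have h1 := (hA' s hs (φ s X) (hsr s hs)).2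
      set L := fderiv ℝ (u s) (φ s X) with hL
      set L₀ := fderiv ℝ (u s) (φ s X₀) with hL₀
      have h3 : L.comp (J' X s) - L₀.comp (J' X₀ s) =
          (L - L₀).comp (J' X s) + L₀.comp (J' X s - J' X₀ s) := by
        rw [ContinuousLinearMap.sub_comp, ContinuousLinearMap.comp_sub]
        abel
      rw [h3]
      have h4 : ‖L₀.comp (J' X s - J' X₀ s)‖ ≤ K * ‖J' X s - J' X₀ s‖ :=
        (ContinuousLinearMap.opNorm_comp_le _ _).trans
          (mul_le_mul_of_nonneg_right (fderiv_bd hu hs _) (norm_nonneg _))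
      have h7 : ‖J' X s‖ ≤ C₁ := (hnorm s hs X hXO).trans
        (Real.exp_le_exp.2 (mul_le_mul_of_nonneg_left hs.2 hK))
      have h5 : ‖(L - L₀).comp (J' X s)‖ ≤ ε / 4 / (C₁ * C₂) * C₁ :=
        (ContinuousLinearMap.opNorm_comp_le _ _).trans
          (mul_le_mul h1 h7 (norm_nonneg _) (by positivity))
      have h6 := norm_add_le ((L - L₀).comp (J' X s)) (L₀.comp (J' X s - J' X₀ s))
      show ‖(L - L₀).comp (J' X s) + L₀.comp (J' X s - J' X₀ s)‖ ≤ _
      linarith)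
    s hsI
  have hg' : ‖J' X s - J' X₀ s‖ ≤ ε / 4 := by
    refine hg.trans (le_of_eq ?_)
    rw [← hC₂]
    field_simp
  have h8 : dist (J' X₀ s) (J' X₀ s₀) < ε / 2 := hδ' hsI hds
  have h9 : dist (J' X s) (J' X₀ s) ≤ ε / 4 := by
    rw [dist_eq_norm]
    exact hg'
  show dist (J' X s) (J' X₀ s₀) < ε
  have h10 := dist_triangle (J' X s) (J' X₀ s) (J' X₀ s₀)
  linarith

end Pool.Agent.Helper94.Slab
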